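import Pool.Agent.H923R2.FZ.JS

/-!
MP_19112f_an: the reduced free product of the Jiang–Su algebra and `C([0,1])`.
Reduction to the tasks of the project FZ (absorption of infinitely many copies of `C([0,1])` and the
Hilbert hotel).
-/

set_option autoImplicit false

open scoped ComplexConjugate

noncomputable section

namespace Pool.Agent.H898R3.Mix

open Pool.Agent.H923R2 Pool.Agent.H923R2.FP Pool.Agent.H923R2.FZ

/-- the two factors -/
def DD (A B : Type) : Bool → Type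
  | true => A
  | false => B

instance instDD (A B : Type) [CStarAlgebra A] [CStarAlgebra B] : ∀ b, CStarAlgebra (DD A B b)
  | true => (inferInstance : CStarAlgebra A)
  | false => (inferInstance : CStarAlgebra B)

instance sepDD (A B : Type) [CStarAlgebra A] [CStarAlgebra B]
    [TopologicalSpace.SeparableSpace A] [TopologicalSpace.SeparableSpace B] :
    ∀ b, TopologicalSpace.SeparableSpace (DD A B b)
  | true => (inferInstance : TopologicalSpace.SeparableSpace A)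
  | false => (inferInstance : TopologicalSpace.SeparableSpace B)

/-- the two functionals -/
def tt {A B : Type} (φ : A → ℂ) (ψ : B → ℂ) : ∀ b, DD A B b → ℂ
  | true => φ
  | false => ψ

/-- the two embeddings -/
def ee {A B E : Type} [CStarAlgebra A] [CStarAlgebra B] [CStarAlgebra E] (i : A →⋆ₐ[ℂ] E)
    (j : B →⋆ₐ[ℂ] E) : ∀ b, DD A B b →⋆ₐ[ℂ] E
  | true => i
  | false => j

/-- the shifted family -/
def sh {E : Type} (c : E) (f : ℕ → E) : ℕ → E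
  | 0 => c
  | n + 1 => f n

/-- move the factor `C([0,1])` to the copies -/
theorem shift {Z B : Type} [CStarAlgebra Z] [CStarAlgebra B] {t : Z → ℂ} {τ : B →ₗ[ℂ] ℂ}
    {e : ∀ b, DD Z C(unitInterval, ℂ) b →⋆ₐ[ℂ] B} {f : ℕ → (C(unitInterval, ℂ) →⋆ₐ[ℂ] B)}
    (h : RFPw (DD Z C(unitInterval, ℂ)) (tt t leb) τ e f) :
    RFPw (J := Fin 1) (fun _ => Z) (fun _ => t) τ (fun _ => e true) (sh (e false) f) := by
  refine ⟨h.fts, fun _ x => h.tr true x, ?_, ?_, ?_⟩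
  · rintro (_ | n) x
    · exact h.tr false x
    · exact h.trf n x
  · let ix : Fin 1 ⊕ ℕ → Bool ⊕ ℕ := fun o => match o with
      | Sum.inl _ => Sum.inl true
      | Sum.inr 0 => Sum.inl false
      | Sum.inr (n + 1) => Sum.inr n
    have hix : Function.Injective ix := by
      rintro (a | (_ | a)) (b | (_ | b)) hab
      · rw [Subsingleton.elim a b]
      · simp [ix] at hab
      · simp [ix] at hab
      · simp [ix] at hab
      · rfl
      · simp [ix] at hab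
      · simp [ix] at hab
      · simp [ix] at hab
      · simp only [ix, Sum.inr.injEq] at hab
        rw [hab]
    intro w hw h1 h2
    have h3 := h.free (w.map fun z => (ix z.1, z.2)) (by simpa using hw) ?_ ?_
    · rw [List.map_map] at h3
      exact h3
    · intro z hz
      obtain ⟨z', hz', rfl⟩ := List.mem_map.1 hz
      obtain ⟨h4, h5⟩ := h1 z' hz'
      refine ⟨?_, h5⟩
      obtain ⟨(a | (_ | a)), x⟩ := z'
      · exact h4
      · exact h4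
      · exact h4
    · rw [List.isChain_map]
      exact h2.imp fun x y hxy h6 => hxy (hix h6)
  · rw [← h.gen]
    congr 2
    ext b
    simp only [Set.mem_union, Set.mem_iUnion]
    constructor
    · rintro (⟨_, hj⟩ | ⟨(_ | n), hn⟩)
      · exact Or.inl ⟨true, hj⟩
      · exact Or.inl ⟨false, hn⟩
      · exact Or.inr ⟨n, hn⟩
    · rintro (⟨(_ | _), hj⟩ | ⟨n, hn⟩)
      · exact Or.inr ⟨0, hj⟩
      · exact Or.inl ⟨0, hj⟩
      · exact Or.inr ⟨n + 1, hn⟩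

/-- existence of the reduced free product of `Z`, `C([0,1])` and countably many `C([0,1])` -/
theorem exw (hEX : S_EX) (hLEBF : S_LEBF) (Z : Type) [CStarAlgebra Z] (t : Z →ₗ[ℂ] ℂ)
    (ht : FTS t) :
    ∃ (B : Type) (_ : CStarAlgebra B) (τ : B →ₗ[ℂ] ℂ)
      (e : ∀ b, DD Z C(unitInterval, ℂ) b →⋆ₐ[ℂ] B)
      (f : ℕ → (C(unitInterval, ℂ) →⋆ₐ[ℂ] B)),
      RFPw (DD Z C(unitInterval, ℂ)) (tt (t : Z → ℂ) leb) τ e f := by
  obtain ⟨l, hl, hleb⟩ := hLEBF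
  let D : Bool ⊕ ℕ → Type := fun o => match o with
    | Sum.inl true => Z
    | Sum.inl false => C(unitInterval, ℂ)
    | Sum.inr _ => C(unitInterval, ℂ)
  let iD : ∀ o, CStarAlgebra (D o) := fun o => match o with
    | Sum.inl true => (inferInstance : CStarAlgebra Z)
    | Sum.inl false => (inferInstance : CStarAlgebra C(unitInterval, ℂ))
    | Sum.inr _ => (inferInstance : CStarAlgebra C(unitInterval, ℂ))
  let tD : ∀ o, D o →ₗ[ℂ] ℂ := fun o => match o with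
    | Sum.inl true => t
    | Sum.inl false => l
    | Sum.inr _ => l
  have htD : ∀ o, FTS (tD o) := by
    rintro ((_ | _) | n)
    · exact hl
    · exact ht
    · exact hl
  obtain ⟨B, iB, τ, e, hR⟩ := hEX (Bool ⊕ ℕ) D iD tD htD
  let e' : ∀ b, DD Z C(unitInterval, ℂ) b →⋆ₐ[ℂ] B := fun b => match b with
    | true => e (Sum.inl true)
    | false => e (Sum.inl false)
  refine ⟨B, iB, τ, e', fun n => e (Sum.inr n), ?_⟩
  refine ⟨hR.fts, ?_, ?_, ?_, ?_⟩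
  · rintro (_ | _) x
    · exact (hR.tr (Sum.inl false) x).trans (hleb x)
    · exact hR.tr (Sum.inl true) x
  · intro n x
    exact (hR.tr (Sum.inr n) x).trans (hleb x)
  · have h1 := hR.free
    have h2 : (fun o : Bool ⊕ ℕ => o.elim (fun j => (e' j).range)
        fun n => (e (Sum.inr n)).range) = fun j => (e j).range := by
      funext o
      rcases o with (_ | _) | n
      · rfl
      · rfl
      · rfl
    exact h2 ▸ h1
  · have h1 := hR.gen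
    rw [← h1]
    congr 2
    ext b
    simp only [Set.mem_union, Set.mem_iUnion]
    constructor
    · rintro (⟨(_ | _), hj⟩ | ⟨n, hn⟩)
      · exact ⟨Sum.inl false, hj⟩
      · exact ⟨Sum.inl true, hj⟩
      · exact ⟨Sum.inr n, hn⟩
    · rintro ⟨(_ | _) | n, h⟩
      · exact Or.inl ⟨false, h⟩
      · exact Or.inl ⟨true, h⟩
      · exact Or.inr ⟨n, h⟩

/-- the Hilbert hotel, iterated -/
theorem hot_iter (hHOT : S_HOT) (hZERO : S_ZERO) (Z : Type) [CStarAlgebra Z] (t : Z → ℂ)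
    (hCJ : CJ Z t) (B : Type) [CStarAlgebra B] [TopologicalSpace.SeparableSpace B]
    (τ : B →ₗ[ℂ] ℂ) : ∀ (k : ℕ) (e : Fin k → (Z →⋆ₐ[ℂ] B))
    (f : ℕ → (C(unitInterval, ℂ) →⋆ₐ[ℂ] B)), RFPw (J := Fin k) (fun _ => Z) (fun _ => t) τ e f →
    ∃ f' : ℕ → (C(unitInterval, ℂ) →⋆ₐ[ℂ] B),
      RFP (J := ℕ) (fun _ => C(unitInterval, ℂ)) (fun _ => leb) τ f' := by
  intro k
  induction k with
  | zero =>
    intro e f h
    exact ⟨f, hZERO Z t B τ e f h⟩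
  | succ k ih =>
    intro e f h
    obtain ⟨f', h'⟩ := hHOT Z t hCJ k B τ e f h
    exact ih _ f' h'

/-- `Z * C([0,1])` is the reduced free product of countably many copies of `C([0,1])` -/
theorem mixed (hCJZ : S_CJZ) (hHOT : S_HOT) (hABSI : S_ABSI) (hSEPW : S_SEPW) (hEX : S_EX)
    (hLEBF : S_LEBF) (hZERO : S_ZERO) (hUNIQ : FP.S_UNIQ) (Z : Type) [CStarAlgebra Z]
    [TopologicalSpace.SeparableSpace Z]
    (t : Z →ₗ[ℂ] ℂ) (ht : FTS t) (hRWA : RWA t) (c : C(unitInterval, ℂ) →⋆ₐ[ℂ] Z)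
    (hc : ∀ x, t (c x) = leb x)
    (W : Type) [CStarAlgebra W] (τW : W →ₗ[ℂ] ℂ) (g : ℕ → (C(unitInterval, ℂ) →⋆ₐ[ℂ] W))
    (hW : RFP (J := ℕ) (fun _ => C(unitInterval, ℂ)) (fun _ => leb) τW g)
    (A : Type) [CStarAlgebra A] (τ : A →ₗ[ℂ] ℂ) (e : ∀ b, DD Z C(unitInterval, ℂ) b →⋆ₐ[ℂ] A)
    (hA : RFP (DD Z C(unitInterval, ℂ)) (tt (t : Z → ℂ) leb) τ e) :
    ∃ Φ : A ≃⋆ₐ[ℂ] W, ∀ x, τW (Φ x) = τ x := by
  have hCJ : CJ Z t := hCJZ Z t hRWA
  obtain ⟨B, iB, τB, eB, fB, hB⟩ := exw hEX hLEBF Z t ht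
  have : TopologicalSpace.SeparableSpace B :=
    hSEPW Bool (DD Z C(unitInterval, ℂ)) (tt (t : Z → ℂ) leb) B τB eB fB hB
  obtain ⟨e', he'⟩ := hABSI Bool (DD Z C(unitInterval, ℂ)) (tt (t : Z → ℂ) leb) true false
    (by simp) c (StarAlgHom.id ℂ _) hc (fun x => rfl) B τB eB fB hB
  obtain ⟨Φ, -, h1⟩ := hUNIQ Bool (DD Z C(unitInterval, ℂ)) (tt (t : Z → ℂ) leb) A B τ τB e e'
    hA he'
  obtain ⟨f', hf'⟩ := hot_iter hHOT hZERO Z t hCJ B τB 1 _ _ (shift hB)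
  obtain ⟨Ψ, -, h2⟩ := hUNIQ ℕ (fun _ => C(unitInterval, ℂ)) (fun _ => leb) B W τB τW f' g hf' hW
  exact ⟨Φ.trans Ψ, fun x => by rw [StarAlgEquiv.trans_apply, h2, h1]⟩

/-- powers of `Z` -/
theorem powZ (hCJZ : S_CJZ) (hHOT : S_HOT) (hABSI : S_ABSI) (hSEPW : S_SEPW) (hEXW : S_EXW)
    (hZERO : S_ZERO) (hUNIQ : FP.S_UNIQ) (Z : Type) [CStarAlgebra Z]
    [TopologicalSpace.SeparableSpace Z]
    (t : Z →ₗ[ℂ] ℂ) (ht : FTS t) (hRWA : RWA t) (c : C(unitInterval, ℂ) →⋆ₐ[ℂ] Z)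
    (hc : ∀ x, t (c x) = leb x)
    (W : Type) [CStarAlgebra W] (τW : W →ₗ[ℂ] ℂ) (g : ℕ → (C(unitInterval, ℂ) →⋆ₐ[ℂ] W))
    (hW : RFP (J := ℕ) (fun _ => C(unitInterval, ℂ)) (fun _ => leb) τW g)
    (A : Type) [CStarAlgebra A] (τ : A →ₗ[ℂ] ℂ) (e : Fin 2 → (Z →⋆ₐ[ℂ] A))
    (hA : RFP (J := Fin 2) (fun _ => Z) (fun _ => (t : Z → ℂ)) τ e) :
    ∃ Φ : A ≃⋆ₐ[ℂ] W, ∀ x, τW (Φ x) = τ x := by
  have hCJ : CJ Z t := hCJZ Z t hRWA
  obtain ⟨B, iB, τB, eB, fB, hB⟩ := hEXW Z t ht 2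
  have : TopologicalSpace.SeparableSpace B :=
    hSEPW (Fin 2) (fun _ => Z) (fun _ => t) B τB eB fB hB
  obtain ⟨e', he'⟩ := hABSI (Fin 2) (fun _ => Z) (fun _ => t) 0 1
    (by simp) c c hc hc B τB eB fB hB
  obtain ⟨Φ, -, h1⟩ := hUNIQ (Fin 2) (fun _ => Z) (fun _ => t) A B τ τB e e' hA he'
  obtain ⟨f', hf'⟩ := hot_iter hHOT hZERO Z t hCJ B τB 2 eB fB hB
  obtain ⟨Ψ, -, h2⟩ := hUNIQ ℕ (fun _ => C(unitInterval, ℂ)) (fun _ => leb) B W τB τW f' g hf' hW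
  exact ⟨Φ.trans Ψ, fun x => by rw [StarAlgEquiv.trans_apply, h2, h1]⟩

/-- powers of `C([0,1])` -/
theorem powC (hABSI : S_ABSI) (hSEPW : S_SEPW) (hSPL : S_SPL) (hUNIQ : FP.S_UNIQ)
    (W : Type) [CStarAlgebra W] (τW : W →ₗ[ℂ] ℂ) (g : ℕ → (C(unitInterval, ℂ) →⋆ₐ[ℂ] W))
    (hW : RFP (J := ℕ) (fun _ => C(unitInterval, ℂ)) (fun _ => leb) τW g)
    (A : Type) [CStarAlgebra A] (τ : A →ₗ[ℂ] ℂ) (e : Fin 2 → (C(unitInterval, ℂ) →⋆ₐ[ℂ] A))
    (hA : RFP (J := Fin 2) (fun _ => C(unitInterval, ℂ)) (fun _ => leb) τ e) :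
    ∃ Φ : A ≃⋆ₐ[ℂ] W, ∀ x, τW (Φ x) = τ x := by
  have h1 := hSPL W τW g hW 2
  have : TopologicalSpace.SeparableSpace W :=
    hSEPW (Fin 2) (fun _ => C(unitInterval, ℂ)) (fun _ => leb) W τW _ _ h1
  obtain ⟨e', he'⟩ := hABSI (Fin 2) (fun _ => C(unitInterval, ℂ)) (fun _ => leb) 0 1 (by simp)
    (StarAlgHom.id ℂ _) (StarAlgHom.id ℂ _) (fun x => rfl) (fun x => rfl) W τW _ _ h1
  obtain ⟨Φ, -, h2⟩ := hUNIQ (Fin 2) (fun _ => C(unitInterval, ℂ)) (fun _ => leb) A W τ τW e e'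
    hA he'
  exact ⟨Φ, h2⟩

end Pool.Agent.H898R3.Mix
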